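import Pool.Agent.MP_df844f_gt.Spec2
import Pool.Agent.MP_df844f_gt.s2.Wedge
import Pool.Agent.MP_df844f_gt.s3.Sweep

namespace Pool.Agent.MP_df844f_gt

open PS

theorem wedge2 (h1 : H1S) : Wedge2S := fun _ _ o Y _ _ z w K s0 hw hK _ h =>
  ⟨_, WedgeA.inc o Y z w K s0 hw, WedgeA.pc o Y z w K s0 hw, WedgeA.good o Y z w K s0 hw h1 hK h,
    WedgeA.ctl o Y z w K s0 hw, by
      rw [← WedgeA.card_pc, ← Set.ncard_univ]
      refine (Set.ncard_le_ncard (t := Sum.inr '' Set.univ) ?_).trans Set.ncard_image_le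
      rintro (x | p) h
      exacts [absurd ⟨x, rfl⟩ h, ⟨p, trivial, rfl⟩], fun _ _ => rfl, fun _ => ⟨rfl, rfl, rfl⟩⟩

theorem sweep2 (s0 : Sweep0S) (att : AttS) (cl : ClosS) : Sweep2S := by
  intro B _ o R hT Y x0 w0 m n a u hY hw hR hc ha hs hb
  induction hA : Y.area using Nat.strong_induction_on generalizing Y with
  | _ A ih =>
    rcases s0 B o R hT Y x0 w0 m n u hY hw hR hc hs hb with ⟨Z, h1, h2, h3⟩ | ⟨J, y, b, h⟩
    · exact ⟨Y, Hom.id Y, hY, Hom.good_id, Hom.ctl_id,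
        Or.inr ⟨ha, Z, by rw [h1, SweepA.push_id], h2, h3⟩⟩
    · obtain ⟨Y1, φ1, g1, c1, n1⟩ := att B Y J y b h
      obtain ⟨Y2, φ2, s2, g2, c2, n2⟩ := cl B Y1
      have a1 := c1.area
      have a2 := c2.area
      have n3 := φ1.new_comp φ2
      by_cases lt : Y2.area < a
      · exact ⟨Y2, φ1.comp φ2, s2, g1.comp g2, c1.comp c2, Or.inl ⟨lt, by omega⟩⟩
      have hs' : ∀ c ∈ ((φ1.comp φ2).push u).support,
          ∃ x s, c = Y2.cell x {s} ∧ Y2.Near n ((φ1.comp φ2).π x0) x := by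
        intro c hc'
        obtain ⟨c0, k, rfl⟩ := Finset.mem_image.1 ((φ1.comp φ2).support_push u hc')
        obtain ⟨x, s, rfl, hx⟩ := hs c0 k
        exact ⟨_, s, rfl, hx.map _⟩
      obtain ⟨Y3, ψ, s3, g3, c3, k⟩ := ih Y2.area (by omega) Y2 ((φ1.comp φ2).π x0)
        ((φ1.comp φ2).push u) s2 (by rw [Hom.f_π, hw])
        (((φ1.comp φ2).card_support_push u).trans hc) (by omega) hs'
        (by rw [← EHom.push_bd, hb, map_zero]) rfl
      refine ⟨Y3, (φ1.comp φ2).comp ψ, s3, (g1.comp g2).comp g3, (c1.comp c2).comp c3, ?_⟩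
      have n4 := (φ1.comp φ2).new_comp ψ
      rcases k with ⟨k1, k2⟩ | ⟨k1, Z, h1, h2, h3⟩
      · exact Or.inl ⟨k1, by omega⟩
      · refine Or.inr ⟨k1, Z, ?_, h2, h3⟩
        rw [h1]
        exact (EHom.push_comp _ _ u).symm

end Pool.Agent.MP_df844f_gt
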