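import Pool.Agent.MP_df844f_gt.Main
import Pool.Agent.MP_df844f_gt.w.All
import Pool.Agent.MP_df844f_gt.x.Fix2
import Pool.Agent.MP_df844f_gt.s2.Att
import Pool.Agent.MP_df844f_gt.s2.BeadDeg
import Pool.Agent.MP_df844f_gt.s2.Clos
import Pool.Agent.MP_df844f_gt.s2.CutW
import Pool.Agent.MP_df844f_gt.s2.H
import Pool.Agent.MP_df844f_gt.s2.Init
import Pool.Agent.MP_df844f_gt.s2.M1
import Pool.Agent.MP_df844f_gt.s2.M2
import Pool.Agent.MP_df844f_gt.s2.Push
import Pool.Agent.MP_df844f_gt.s2.Short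
import Pool.Agent.MP_df844f_gt.s2.Sub
import Pool.Agent.MP_df844f_gt.s2.Vol
import Pool.Agent.MP_df844f_gt.s3.Bead
import Pool.Agent.MP_df844f_gt.s3.Cap
import Pool.Agent.MP_df844f_gt.s3.Count
import Pool.Agent.MP_df844f_gt.s3.Edge
import Pool.Agent.MP_df844f_gt.s3.Gain
import Pool.Agent.MP_df844f_gt.s3.Rem
import Pool.Agent.MP_df844f_gt.s3.Step
import Pool.Agent.MP_df844f_gt.s5.Abs
import Pool.Agent.MP_df844f_gt.s5.Area
import Pool.Agent.MP_df844f_gt.s5.ChiP
import Pool.Agent.MP_df844f_gt.s5.Coef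
import Pool.Agent.MP_df844f_gt.s5.CoreA
import Pool.Agent.MP_df844f_gt.s5.CoreB
import Pool.Agent.MP_df844f_gt.s5.EndA
import Pool.Agent.MP_df844f_gt.s5.EndB
import Pool.Agent.MP_df844f_gt.s5.EndM
import Pool.Agent.MP_df844f_gt.s5.Euler
import Pool.Agent.MP_df844f_gt.s5.Forest
import Pool.Agent.MP_df844f_gt.s5.Inst
import Pool.Agent.MP_df844f_gt.s5.LemS
import Pool.Agent.MP_df844f_gt.s5.Struct
import Pool.Agent.MP_df844f_gt.s5.Surj
import Pool.Agent.MP_df844f_gt.s5.TIneq
import Pool.Agent.MP_df844f_gt.s5.TauV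
import Pool.Agent.MP_df844f_gt.s5.Tree
import Pool.Agent.MP_df844f_gt.s5.ZLow

/-! Assembly. -/

namespace Pool.Agent.MP_df844f_gt.XAll

open WAll

theorem attA : AttS := att factA
theorem sweep0A : Sweep0S := sweep0 (step factA)
theorem bdA : BdS := bdS edgeS
theorem pushA : PushS :=
  push (cutW (sub sp1A dehnA) closeDA dehnA) (short hS gcvxA hullA ballA) clos dehnA closeDA
theorem gainA : GainS :=
  gain (cap factA (wedge2 h1A) clos hullA fillA) (sweep2 sweep0A attA clos) count
    (rem hS qA clos) lamS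
theorem lemA : LemSS := lemS forest tree
theorem instA : InstS := inst factA edgeS bdA
theorem tineqA : TIneqS := tineq gainA (absS lemA) instA
theorem coefA : CoefS := coef factA
theorem psizeA : PsizeS := psize factA
theorem chiPA : ChiPS := chiP factA psizeA (tauV factA coefA psizeA)
theorem structA : StructS :=
  struct (bead sweep0A attA clos edgeS bdA) (beadDeg m1 m2) freeEx
theorem mainA : MainS :=
  mainS (init h1A) pushA
    (areaS tineqA chiPA euler (surj factA) freeEx (zlow coefA) arcS addS structA)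
    (noEnd tineqA (chiLe (absChi lemA) instA) chiPA euler (surj factA) freeEx
      (endA coefA coreA) (endB coefA (coreB h1A h2A)) (endM factA psizeA) addS structA)
    volS

end Pool.Agent.MP_df844f_gt.XAll
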